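import Pool.Agent.Helper77.PPS.Goals

set_option autoImplicit false

namespace Pool.Agent.Helper2.PPS

open Finset Real Pool.Agent.Helper77.PPS

/-- all labellings with support exactly `b` -/
noncomputable def EE {P : Type} (p : ℕ) [Fact p.Prime] (b : Finset P) : Finset (P →₀ ZMod p) :=
  b.finsupp (fun _ => (Finset.univ : Finset (ZMod p)).erase 0)

theorem mem_EE {P : Type} (p : ℕ) [Fact p.Prime] (b : Finset P) (e : P →₀ ZMod p) :
    e ∈ EE p b ↔ e.support = b := by
  unfold EE
  rw [Finset.mem_finsupp_iff]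
  constructor
  · rintro ⟨h1, h2⟩
    refine Finset.Subset.antisymm h1 (fun i hi => ?_)
    have := h2 i hi
    rw [Finset.mem_erase] at this
    exact Finsupp.mem_support_iff.2 this.1
  · rintro rfl
    exact ⟨Finset.Subset.refl _, fun i hi => by
      rw [Finset.mem_erase]; exact ⟨Finsupp.mem_support_iff.1 hi, Finset.mem_univ _⟩⟩

theorem card_EE {P : Type} (p : ℕ) [Fact p.Prime] (b : Finset P) :
    (EE p b).card = (p - 1) ^ b.card := by
  unfold EE
  rw [Finset.card_finsupp, Finset.prod_const, Finset.card_erase_of_mem (Finset.mem_univ _),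
    Finset.card_univ, ZMod.card]

open Classical in
/-- the labelled ideals supported in `V` of norm `≤ X` -/
noncomputable def LS {P : Type} (p : ℕ) [Fact p.Prime] (N : P → ℕ) (V : Set P) (X : ℝ) :
    Finset (P →₀ ZMod p) :=
  (((pr N X).powerset.filter (fun b ↦ (nb N b : ℝ) ≤ X)).filter (fun b => ∀ q ∈ b, q ∈ V)).biUnion
    (EE p)

theorem nb_pos {P : Type} {N : P → ℕ} {C : ℝ} (h : PSys N C) (b : Finset P) : 1 ≤ nb N b := by
  unfold nb
  exact Nat.one_le_iff_ne_zero.2 (Finset.prod_ne_zero_iff.2 (fun q _ => by have := h.two q; omega))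

theorem nb_mono {P : Type} {N : P → ℕ} {C : ℝ} (h : PSys N C) {b b' : Finset P} (hb : b ⊆ b') :
    nb N b ≤ nb N b' := by
  unfold nb
  exact Finset.prod_le_prod_of_subset_of_one_le' hb (fun q _ _ => by have := h.two q; omega)

theorem le_nb {P : Type} {N : P → ℕ} {C : ℝ} (h : PSys N C) {b : Finset P} {q : P} (hq : q ∈ b) :
    N q ≤ nb N b := by
  have := nb_mono h (Finset.singleton_subset_iff.2 hq)
  simpa [nb] using this

theorem mem_LS {P : Type} (p : ℕ) [Fact p.Prime] {N : P → ℕ} {C : ℝ} (h : PSys N C) (V : Set P)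
    (X : ℝ) (e : P →₀ ZMod p) :
    e ∈ LS p N V X ↔ (∀ q ∈ e.support, q ∈ V) ∧ (nb N e.support : ℝ) ≤ X := by
  unfold LS
  simp only [Finset.mem_biUnion, Finset.mem_filter, Finset.mem_powerset, mem_EE]
  constructor
  · rintro ⟨b, ⟨⟨h1, h2⟩, h3⟩, rfl⟩
    exact ⟨h3, h2⟩
  · rintro ⟨h1, h2⟩
    refine ⟨e.support, ⟨⟨fun q hq => ?_, h2⟩, h1⟩, rfl⟩
    rw [mem_pr h]
    refine le_trans ?_ h2
    exact_mod_cast le_nb h hq

theorem card_LS {P : Type} (p : ℕ) [Fact p.Prime] {N : P → ℕ} {C : ℝ} (h : PSys N C) (V : Set P)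
    (X : ℝ) : ((LS p N V X).card : ℝ) =
      ∑ b ∈ (pr N X).powerset.filter (fun b ↦ (nb N b : ℝ) ≤ X),
        wt (V.indicator fun _ ↦ ((p : ℝ) - 1)) b := by
  classical
  have hp : 1 ≤ p := (Fact.out : p.Prime).one_le
  unfold LS
  rw [Finset.card_biUnion]
  · push_cast
    rw [Finset.sum_filter]
    refine Finset.sum_congr rfl (fun b _ => ?_)
    by_cases hb : ∀ q ∈ b, q ∈ V
    · rw [if_pos hb, card_EE]
      unfold wt
      rw [Finset.prod_congr rfl (fun q hq => Set.indicator_of_mem (hb q hq) _), Finset.prod_const]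
      push_cast [hp]
      rfl
    · rw [if_neg hb]
      push Not at hb
      obtain ⟨q, hq, hqV⟩ := hb
      symm
      exact Finset.prod_eq_zero hq (Set.indicator_of_notMem hqV _)
  · intro b _ b' _ hne
    rw [Function.onFun, Finset.disjoint_left]
    intro e he he'
    rw [mem_EE] at he he'
    exact hne (he.symm.trans he')

theorem ind_bd {P : Type} (p : ℕ) [Fact p.Prime] (V : Set P) (q : P) :
    0 ≤ V.indicator (fun _ ↦ ((p : ℝ) - 1)) q ∧
      V.indicator (fun _ ↦ ((p : ℝ) - 1)) q ≤ (p : ℝ) - 1 := by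
  have hp : (1 : ℝ) ≤ p := by exact_mod_cast (Fact.out : p.Prime).one_le
  by_cases h : q ∈ V
  · rw [Set.indicator_of_mem h]; exact ⟨by linarith, le_refl _⟩
  · rw [Set.indicator_of_notMem h]; exact ⟨le_refl _, by linarith⟩

theorem chLow_diff {P : Type} {N : P → ℕ} {C : ℝ} (h : PSys N C) (V : Set P) (a : ℝ)
    (hc : ChLow N (V.indicator fun _ ↦ a)) (R : Finset P) :
    ChLow N ((V \ R).indicator fun _ ↦ a) := by
  obtain ⟨c, B, x₀, h1, h2, h3⟩ := hc
  refine ⟨c, B, max x₀ (B * nb N R), h1, h2, fun x hx => ?_⟩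
  have hx0 : x₀ ≤ x := (le_max_left _ _).trans hx
  have hxR : B * nb N R ≤ x := (le_max_right _ _).trans hx
  refine (h3 x hx0).trans (le_of_eq ?_)
  refine Finset.sum_congr rfl (fun q hq => ?_)
  rw [Finset.mem_filter] at hq
  have hqR : q ∉ R := by
    intro hqR
    have e1 : (N q : ℝ) ≤ nb N R := by exact_mod_cast le_nb h hqR
    have e2 : (nb N R : ℝ) ≤ x / B := by
      rw [le_div_iff₀ (by linarith)]; linarith
    linarith [hq.2]
  by_cases hqV : q ∈ V
  · rw [Set.indicator_of_mem hqV, Set.indicator_of_mem (show q ∈ V \ R from ⟨hqV, by simpa using hqR⟩)]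
  · rw [Set.indicator_of_notMem hqV, Set.indicator_of_notMem (fun hh => hqV hh.1)]

theorem ms_diff {P : Type} {N : P → ℕ} {C : ℝ} (h : PSys N C) (V : Set P) (a : ℝ) (ha : 0 ≤ a)
    (R : Finset P) (X : ℝ) :
    ms N (V.indicator fun _ ↦ a) X - a * R.card ≤ ms N ((V \ R).indicator fun _ ↦ a) X := by
  classical
  have key : ms N (V.indicator fun _ ↦ a) X - ms N ((V \ R).indicator fun _ ↦ a) X ≤ a * R.card := by
    unfold ms
    rw [← Finset.sum_sub_distrib]
    have h1 : ∀ q ∈ pr N X, (V.indicator (fun _ ↦ a) q / N q -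
        (V \ (R : Set P)).indicator (fun _ ↦ a) q / N q) ≤ if q ∈ R then a else 0 := by
      intro q _
      have hN : (1 : ℝ) ≤ N q := by
        have := h.two q
        exact_mod_cast (show 1 ≤ N q by omega)
      by_cases hqR : q ∈ R
      · have hno : q ∉ V \ (R : Set P) := fun hh => hh.2 (by simpa using hqR)
        rw [if_pos hqR, Set.indicator_of_notMem hno, zero_div, sub_zero]
        by_cases hqV : q ∈ V
        · rw [Set.indicator_of_mem hqV]
          rw [div_le_iff₀ (by linarith)]
          nlinarith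
        · rw [Set.indicator_of_notMem hqV, zero_div]; exact ha
      · rw [if_neg hqR]
        by_cases hqV : q ∈ V
        · rw [Set.indicator_of_mem hqV,
            Set.indicator_of_mem (show q ∈ V \ R from ⟨hqV, by simpa using hqR⟩), sub_self]
        · rw [Set.indicator_of_notMem hqV, Set.indicator_of_notMem (fun hh => hqV hh.1), sub_self]
    refine (Finset.sum_le_sum h1).trans ?_
    rw [← Finset.sum_filter, Finset.sum_const, nsmul_eq_mul, mul_comm]
    refine mul_le_mul_of_nonneg_left ?_ ha
    have : ((pr N X).filter (fun q => q ∈ R)) ⊆ R := fun q hq => (Finset.mem_filter.1 hq).2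
    exact_mod_cast Finset.card_le_card this
  linarith

theorem p_lab (h1 : P_HTU) (h2 : P_LOW) (h3 : P_DBL) : P_LAB := by
  classical
  intro p _ P N C hP V hCh W _ _ _ c τ hτ
  have hp : (1 : ℝ) ≤ p := by exact_mod_cast (Fact.out : p.Prime).one_le
  set f : P → ℝ := V.indicator fun _ ↦ ((p : ℝ) - 1) with hf
  set a : ℝ := (p : ℝ) - 1 with ha
  have ha0 : 0 ≤ a := by rw [ha]; linarith
  -- representatives
  have hrep : ∀ γ : W, ∃ r : P →₀ ZMod p, γ ∈ Submodule.span (ZMod p) (c '' V) →
      (∀ q ∈ r.support, q ∈ V) ∧ Finsupp.linearCombination (ZMod p) c r = γ := by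
    intro γ
    by_cases hγ : γ ∈ Submodule.span (ZMod p) (c '' V)
    · obtain ⟨l, hl, he⟩ := (Finsupp.mem_span_image_iff_linearCombination (ZMod p)).1 hγ
      refine ⟨l, fun _ => ⟨fun q hq => ?_, he⟩⟩
      exact (Finsupp.mem_supported _ _).1 hl (by exact_mod_cast hq)
    · exact ⟨0, fun hh => (hγ hh).elim⟩
  choose r hr using hrep
  haveI : Fintype W := Fintype.ofFinite W
  set R : Finset P := Finset.univ.biUnion (fun γ => (r γ).support) with hR
  have hRsub : ∀ γ, (r γ).support ⊆ R := fun γ =>
    Finset.subset_biUnion_of_mem (fun γ => (r γ).support) (Finset.mem_univ γ)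
  set ρ : ℝ := (nb N R : ℝ) with hρ
  have hρ1 : 1 ≤ ρ := by rw [hρ]; exact_mod_cast nb_pos hP R
  -- constants
  obtain ⟨C1, hC1, H1⟩ := h1 C a
  obtain ⟨c0, X0, hc0, H2⟩ := h2 P N C a hP ((V \ R).indicator fun _ ↦ a)
    (fun q => ind_bd p (V \ R) q) (chLow_diff hP V a hCh R)
  obtain ⟨C3, hC3, H3⟩ := h3 C a ρ hρ1
  refine ⟨c0 * (exp (-(a * R.card)) / C3), C1, max 2 (ρ * max 2 X0), by positivity, hC1,
    fun X hX => ?_⟩
  have hX2 : 2 ≤ X := (le_max_left _ _).trans hX
  have hsub : labs p N V c τ X ⊆ (LS p N V X : Set (P →₀ ZMod p)) := by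
    rintro e ⟨e1, e2, -⟩
    exact (mem_LS p hP V X e).2 ⟨e1, e2⟩
  have hfin : (labs p N V c τ X).Finite := (LS p N V X).finite_toSet.subset hsub
  refine ⟨hfin, ?_, ?_⟩
  · -- lower bound
    set Y : ℝ := X / ρ with hY
    have hYX : ρ * Y = X := by rw [hY]; field_simp
    have hY2' : max 2 X0 ≤ Y := by
      rw [hY, le_div_iff₀ (by linarith), mul_comm]
      exact (le_max_right _ _).trans hX
    have hY2 : 2 ≤ Y := (le_max_left _ _).trans hY2'
    have hY0 : X0 ≤ Y := (le_max_right _ _).trans hY2'
    -- the injection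
    let cl : (P →₀ ZMod p) → W := fun e => Finsupp.linearCombination (ZMod p) c e
    have hcl : ∀ e ∈ LS p N (V \ R) Y, cl e ∈ Submodule.span (ZMod p) (c '' V) := by
      intro e he
      rw [mem_LS p hP] at he
      rw [Finsupp.mem_span_image_iff_linearCombination]
      refine ⟨e, ?_, rfl⟩
      rw [Finsupp.mem_supported]
      intro q hq
      exact (he.1 q (by exact_mod_cast hq)).1
    let φ : (P →₀ ZMod p) → (P →₀ ZMod p) := fun e => e + r (τ - cl e)
    have hφ1 : ∀ e ∈ LS p N (V \ R) Y, φ e ∈ labs p N V c τ X := by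
      intro e he
      have hspan : τ - cl e ∈ Submodule.span (ZMod p) (c '' V) := Submodule.sub_mem _ hτ (hcl e he)
      obtain ⟨r1, r2⟩ := hr _ hspan
      rw [mem_LS p hP] at he
      obtain ⟨e1, e2⟩ := he
      have hdisj : Disjoint e.support (r (τ - cl e)).support := by
        rw [Finset.disjoint_left]
        intro q hq hq'
        exact (e1 q hq).2 (by exact_mod_cast hRsub _ hq')
      have hsup : (φ e).support = e.support ∪ (r (τ - cl e)).support :=
        Finsupp.support_add_eq hdisj
      refine ⟨?_, ?_, ?_⟩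
      · intro q hq
        rw [hsup, Finset.mem_union] at hq
        rcases hq with hq | hq
        · exact (e1 q hq).1
        · exact r1 q hq
      · rw [hsup]
        have e3 : nb N (e.support ∪ (r (τ - cl e)).support) =
            nb N e.support * nb N (r (τ - cl e)).support := by
          unfold nb
          exact Finset.prod_union hdisj
        rw [e3]
        push_cast
        have e4 : ((nb N (r (τ - cl e)).support : ℕ) : ℝ) ≤ ρ := by
          rw [hρ]; exact_mod_cast nb_mono hP (hRsub _)
        have e5 : (0 : ℝ) ≤ (nb N e.support : ℕ) := Nat.cast_nonneg _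
        have e6 : (0 : ℝ) ≤ (nb N (r (τ - cl e)).support : ℕ) := Nat.cast_nonneg _
        calc ((nb N e.support : ℕ) : ℝ) * (nb N (r (τ - cl e)).support : ℕ) ≤ Y * ρ :=
              mul_le_mul e2 e4 e6 (by linarith)
          _ = X := by rw [mul_comm]; exact hYX
      · have e7 : ∑ q ∈ (φ e).support, (φ e) q • c q =
            Finsupp.linearCombination (ZMod p) c (φ e) := by
          rw [Finsupp.linearCombination_apply]; rfl
        rw [e7]
        change Finsupp.linearCombination (ZMod p) c (e + r (τ - cl e)) = τ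
        rw [map_add, r2]
        change cl e + (τ - cl e) = τ
        abel
    have hφ2 : Set.InjOn φ (LS p N (V \ R) Y : Set (P →₀ ZMod p)) := by
      intro e he e' he' heq
      have he := (mem_LS p hP _ _ _).1 (Finset.mem_coe.1 he)
      have he' := (mem_LS p hP _ _ _).1 (Finset.mem_coe.1 he')
      ext q
      by_cases hq : q ∈ R
      · have z1 : e q = 0 := by
          by_contra hne
          exact (he.1 q (Finsupp.mem_support_iff.2 hne)).2 (by exact_mod_cast hq)
        have z2 : e' q = 0 := by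
          by_contra hne
          exact (he'.1 q (Finsupp.mem_support_iff.2 hne)).2 (by exact_mod_cast hq)
        rw [z1, z2]
      · have z1 : ∀ γ, r γ q = 0 := by
          intro γ
          by_contra hne
          exact hq (hRsub γ (Finsupp.mem_support_iff.2 hne))
        have z2 := DFunLike.congr_fun heq q
        simp only [φ, Finsupp.add_apply, z1, add_zero] at z2
        exact z2
    have hcard : ((LS p N (V \ R) Y).card : ℝ) ≤ (labs p N V c τ X).ncard := by
      have z1 : ((LS p N (V \ R) Y).image φ).card = (LS p N (V \ R) Y).card :=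
        Finset.card_image_of_injOn hφ2
      have z2 : (((LS p N (V \ R) Y).image φ : Finset _) : Set (P →₀ ZMod p)) ⊆
          labs p N V c τ X := by
        intro e he
        rw [Finset.mem_coe, Finset.mem_image] at he
        obtain ⟨e', he', rfl⟩ := he
        exact hφ1 e' he'
      have z3 := Set.ncard_le_ncard z2 hfin
      rw [Set.ncard_coe_finset, z1] at z3
      exact_mod_cast z3
    refine le_trans ?_ hcard
    rw [card_LS p hP]
    refine le_trans ?_ (H2 Y hY0)
    have m1 : exp (-(a * R.card)) * mag N f Y ≤ mag N ((V \ R).indicator fun _ ↦ a) Y := by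
      unfold mag
      have l1 : 0 < log Y := log_pos (by linarith)
      have l2 : 0 ≤ Y / log Y := by positivity
      have l3 : exp (-(a * R.card)) * exp (ms N f Y) ≤
          exp (ms N ((V \ R).indicator fun _ ↦ a) Y) := by
        rw [← exp_add]
        refine exp_le_exp.2 ?_
        have := ms_diff hP V a ha0 R Y
        rw [hf]
        linarith
      calc exp (-(a * R.card)) * (Y / log Y * exp (ms N f Y))
          = Y / log Y * (exp (-(a * R.card)) * exp (ms N f Y)) := by ring
        _ ≤ Y / log Y * exp (ms N ((V \ R).indicator fun _ ↦ a) Y) :=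
            mul_le_mul_of_nonneg_left l3 l2
    have m2 : mag N f X ≤ C3 * mag N f Y := by
      have := H3 P N hP f (fun q => ind_bd p V q) Y hY2
      rwa [hYX] at this
    have m3 : mag N f X / C3 ≤ mag N f Y := by
      rw [div_le_iff₀ hC3, mul_comm]; exact m2
    calc c0 * (exp (-(a * R.card)) / C3) * mag N f X
        = c0 * (exp (-(a * R.card)) * (mag N f X / C3)) := by ring
      _ ≤ c0 * (exp (-(a * R.card)) * mag N f Y) := by
          refine mul_le_mul_of_nonneg_left (mul_le_mul_of_nonneg_left m3 (exp_pos _).le) hc0.le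
      _ ≤ c0 * mag N ((V \ R).indicator fun _ ↦ a) Y := mul_le_mul_of_nonneg_left m1 hc0.le
  · -- upper bound
    have z1 := Set.ncard_le_ncard hsub (LS p N V X).finite_toSet
    rw [Set.ncard_coe_finset] at z1
    have z2 : ((labs p N V c τ X).ncard : ℝ) ≤ (LS p N V X).card := by exact_mod_cast z1
    refine z2.trans ?_
    rw [card_LS p hP]
    exact H1 P N hP f (fun q => ind_bd p V q) X hX2

end Pool.Agent.Helper2.PPS
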